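import Pool.Agent.H620R2.Gauge.U1
import Pool.Agent.H620R2.Gauge2.Trans
import Pool.Agent.H673R2.OneOne.Gen

/-!
# Closure properties of polynomial space relative to an oracle
-/

set_option autoImplicit false

namespace Pool.Agent.TH687.OneDeg

open Pool.Agent.NPC Pool.Agent.H622R2
open Pool.Agent.H620R2.Gauge (IsPSPACE SAlg)

/-! ### transfer between the two libraries -/

/-- the same algorithm in the other library -/
def ofRO (M : Pool.Agent.H628R3.RO.Alg) : Pool.Agent.H620R2.Gauge.Alg := ⟨M.D, M.poly, M.p⟩

theorem run_ofRO (M : Pool.Agent.H628R3.RO.Alg) (A : Pool.Agent.H628R3.RO.Oracle)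
    (x : List Bool) : ∀ (n : ℕ) (a : List Bool), (ofRO M).run A x n a = M.run A x n a := by
  intro n
  induction n with
  | zero => intro a; rfl
  | succ n ih =>
    intro a
    rw [Pool.Agent.H620R2.Gauge.Alg.run, Pool.Agent.H628R3.RO.Alg.run]
    show (match M.D (pairBits x a) with | [] => _ | true :: z => _ | false :: q => _) = _
    rcases M.D (pairBits x a) with _ | ⟨c, q⟩
    · rfl
    · cases c with
      | true => rfl
      | false => exact ih _

theorem isFP_ofRO {A : Pool.Agent.H628R3.RO.Oracle} {F : List Bool → List Bool}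
    (h : Pool.Agent.H628R3.RO.IsFP A F) : Pool.Agent.H620R2.Gauge.IsFP A F := by
  obtain ⟨M, hM⟩ := h
  refine ⟨ofRO M, fun x => ?_⟩
  rw [← hM x]
  exact run_ofRO M A x _ _

/-! ### definition by cases -/

theorem cases {A : List Bool → Bool} {L L' : Set (List Bool)} (h : IsPSPACE A L)
    (h' : IsPSPACE A L') {b : List Bool → Bool} (hb : Poly b) :
    IsPSPACE A {y | if b y = true then y ∈ L else y ∈ L'} := by
  obtain ⟨M, p, hM⟩ := h
  obtain ⟨M', p', hM'⟩ := h'
  have hb1 : Poly (fun z : List Bool => b (unpair z).1) := hb.comp (Poly.fst poly_unpair)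
  have hA : Poly (fun z : List Bool => if b (unpair z).1 = true then M.act z else M'.act z) :=
    Poly.ite (by simpa using hb1) (poly_of_polyTime M.act_poly) (poly_of_polyTime M'.act_poly)
  have hN : Poly (fun z : List Bool => if b (unpair z).1 = true then M.next z else M'.next z) :=
    Poly.ite (by simpa using hb1) (poly_of_polyTime M.next_poly) (poly_of_polyTime M'.next_poly)
  let N : SAlg := ⟨_, polyTime_of_poly_list hA, _, polyTime_of_poly_list hN⟩
  have hact : ∀ y s, N.act (pairBits y s) =
      if b y = true then M.act (pairBits y s) else M'.act (pairBits y s) := by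
    intro y s
    show (if b (unpair (pairBits y s)).1 = true then _ else _) = _
    rw [unpair_pairBits]
  have hnext : ∀ y s, N.next (pairBits y s) =
      if b y = true then M.next (pairBits y s) else M'.next (pairBits y s) := by
    intro y s
    show (if b (unpair (pairBits y s)).1 = true then _ else _) = _
    rw [unpair_pairBits]
  refine ⟨N, p + p', fun y => ?_⟩
  by_cases hy : b y = true
  · have hr : ∀ s, N.Reach A y s ↔ M.Reach A y s := by
      intro s
      constructor
      · intro h
        induction h with
        | start => exact SAlg.Reach.start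
        | step _ h1 ih =>
          rw [hnext, if_pos hy]
          rw [hact, if_pos hy] at h1
          exact SAlg.Reach.step ih h1
      · intro h
        induction h with
        | start => exact SAlg.Reach.start
        | @step s q _ h1 ih =>
          have h2 := SAlg.Reach.step (M := N) ih (q := q) (by rw [hact, if_pos hy]; exact h1)
          rwa [hnext, if_pos hy] at h2
    refine ⟨fun s hs => ?_, ?_⟩
    · have h1 := (hM y).1 s ((hr s).1 hs)
      rw [Polynomial.eval_add]
      omega
    · obtain ⟨s, z, h3, h4, h5⟩ := (hM y).2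
      refine ⟨s, z, (hr s).2 h3, by rw [hact, if_pos hy]; exact h4, ?_⟩
      simp only [Set.mem_ofPred_eq, if_pos hy]
      exact h5
  · have hr : ∀ s, N.Reach A y s ↔ M'.Reach A y s := by
      intro s
      constructor
      · intro h
        induction h with
        | start => exact SAlg.Reach.start
        | step _ h1 ih =>
          rw [hnext, if_neg hy]
          rw [hact, if_neg hy] at h1
          exact SAlg.Reach.step ih h1
      · intro h
        induction h with
        | start => exact SAlg.Reach.start
        | @step s q _ h1 ih =>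
          have h2 := SAlg.Reach.step (M := N) ih (q := q) (by rw [hact, if_neg hy]; exact h1)
          rwa [hnext, if_neg hy] at h2
    refine ⟨fun s hs => ?_, ?_⟩
    · have h1 := (hM' y).1 s ((hr s).1 hs)
      rw [Polynomial.eval_add]
      omega
    · obtain ⟨s, z, h3, h4, h5⟩ := (hM' y).2
      refine ⟨s, z, (hr s).2 h3, by rw [hact, if_neg hy]; exact h4, ?_⟩
      simp only [Set.mem_ofPred_eq, if_neg hy]
      exact h5

/-! ### unions, intersections, reductions -/

theorem union {A : List Bool → Bool} {L L' : Set (List Bool)} (h : IsPSPACE A L)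
    (h' : IsPSPACE A L') : IsPSPACE A (L ∪ L') := by
  have p2 : Poly (fun u : List Bool => (unpair u).2) := Poly.snd poly_unpair
  have p1 : Poly (fun u : List Bool => (unpair u).1) := Poly.fst poly_unpair
  have h1 := cases (h.precomp p2) (h'.precomp p2)
    (b := fun u => decide ((unpair u).1 = [true])) (Poly.decide_eq p1 (NPC.Poly.const _))
  have h2 := h1.exists_short (β := fun _ => 1) (UPoly.const 1)
  have e : {y : List Bool | ∃ w : List Bool, w.length ≤ 1 ∧ pairBits w y ∈
      {u : List Bool | if decide ((unpair u).1 = [true]) = true then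
        u ∈ {u | (unpair u).2 ∈ L} else u ∈ {u | (unpair u).2 ∈ L'}}} = L ∪ L' := by
    ext y
    simp only [Set.mem_ofPred_eq, Set.mem_union, unpair_pairBits, decide_eq_true_eq]
    constructor
    · rintro ⟨w, _, hw⟩
      by_cases hw' : w = [true]
      · rw [if_pos hw'] at hw
        exact Or.inl hw
      · rw [if_neg hw'] at hw
        exact Or.inr hw
    · rintro (hy | hy)
      · exact ⟨[true], by simp, by simpa using hy⟩
      · exact ⟨[], by simp, by simpa using hy⟩
  rwa [e] at h2

theorem inter {A : List Bool → Bool} {L L' : Set (List Bool)} (h : IsPSPACE A L)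
    (h' : IsPSPACE A L') : IsPSPACE A (L ∩ L') := by
  have h1 := (union h.compl h'.compl).compl
  rwa [Set.compl_union, compl_compl, compl_compl] at h1

open Pool.Agent.H628R3.RO in
theorem red {A : Oracle} {L L' : Set (List Bool)} (hr : Red A L L') (h : IsPSPACE A L') :
    IsPSPACE A L := by
  obtain ⟨F, hF, hL⟩ := hr
  obtain ⟨b, hb⟩ := hF.length_le
  have p2 : Poly (fun u : List Bool => (unpair u).2) := Poly.snd poly_unpair
  have p1 : Poly (fun u : List Bool => (unpair u).1) := Poly.fst poly_unpair
  have hG : Pool.Agent.H620R2.Gauge.IsP A {u | F (unpair u).2 = (unpair u).1} := by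
    have g1 : IsFP A (fun u => pairBits (F (unpair u).2) u) :=
      IsFP.pair (IsFP.comp hF (IsFP.of_poly p2)) (IsFP.of_poly Poly.id)
    have g2 : Poly (fun t : List Bool => [decide ((unpair t).1 = (unpair (unpair t).2).1)]) :=
      Poly.cons (Poly.decide_eq p1 (Poly.fst (poly_unpair.comp p2))) (NPC.Poly.const [])
    have g3 := IsFP.comp (IsFP.of_poly (A := A) g2) g1
    simp only [unpair_pairBits] at g3
    exact ⟨_, isFP_ofRO g3, fun u => by simp⟩
  have h1 := (inter hG.isPSPACE (h.precomp p1)).exists_short
    (β := fun y => b.eval y.length) (UPoly.eval (UPoly.length Poly.id) b)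
  have e : {y : List Bool | ∃ w : List Bool, w.length ≤ b.eval y.length ∧ pairBits w y ∈
      {u | F (unpair u).2 = (unpair u).1} ∩ {u | (unpair u).1 ∈ L'}} = L := by
    ext y
    simp only [Set.mem_ofPred_eq, Set.mem_inter_iff, unpair_pairBits]
    rw [hL]
    constructor
    · rintro ⟨w, _, h1, h2⟩
      rw [h1]
      exact h2
    · intro hy
      exact ⟨F y, hb y, rfl, hy⟩
  rwa [e] at h1

open Pool.Agent.H628R3.RO in
theorem of_np {A : Oracle} {L : Set (List Bool)} (h : IsNP A L) : IsPSPACE A L := by
  obtain ⟨V, p, hV, hL⟩ := h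
  have p2 : Poly (fun u : List Bool => (unpair u).2) := Poly.snd poly_unpair
  have p1 : Poly (fun u : List Bool => (unpair u).1) := Poly.fst poly_unpair
  have hG : Pool.Agent.H620R2.Gauge.IsP A {u | V (pairBits (unpair u).2 (unpair u).1) = [true]} := by
    have g1 : IsFP A (fun u => V (pairBits (unpair u).2 (unpair u).1)) :=
      IsFP.comp hV (IsFP.of_poly (poly_pairBits p2 p1))
    exact ⟨_, isFP_ofRO g1, fun u => Iff.rfl⟩
  have h1 := hG.isPSPACE.exists_short
    (β := fun y => p.eval y.length) (UPoly.eval (UPoly.length Poly.id) p)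
  have e : {y : List Bool | ∃ w : List Bool, w.length ≤ p.eval y.length ∧ pairBits w y ∈
      {u | V (pairBits (unpair u).2 (unpair u).1) = [true]}} = L := by
    ext y
    simp only [Set.mem_ofPred_eq, unpair_pairBits]
    exact (hL y).symm
  rwa [e] at h1

end Pool.Agent.TH687.OneDeg
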